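import Pool.Agent.H.MP_8aa8ea_co.Main

set_option autoImplicit false

namespace Pool.Agent.Results.MP_8aa8ea_co.No
open Pool.Agent.H.MP_8aa8ea_co

/-- combinatorial configuration `(n_k)` with point set `α`, line set `β`, incidence `I` -/
def Config {α β : Type} (k : ℕ) (I : α → β → Prop) : Prop :=
  Finite α ∧ Finite β ∧ Nat.card α = Nat.card β ∧
    (∀ l, {p | I p l}.ncard = k) ∧ (∀ p, {l | I p l}.ncard = k) ∧
    ∀ p q, p ≠ q → {l | I p l ∧ I q l}.Subsingleton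

/-- geometric realization in the Euclidean plane `ℂ` -/
def Realizes {α β : Type} (I : α → β → Prop) (P : α → ℂ) (L : β → AffineSubspace ℝ ℂ) : Prop :=
  Function.Injective P ∧ Function.Injective L ∧
    (∀ l, Module.finrank ℝ (L l).direction = 1) ∧ ∀ p l, P p ∈ L l ↔ I p l

/-- `q` is the pole of the line `M` in the circle with centre `c` and radius `ρ` -/
def IsPole (c : ℂ) (ρ : ℝ) (q : ℂ) (M : AffineSubspace ℝ ℂ) : Prop :=
  ∀ z, z ∈ M ↔ inner ℝ (z - c) (q - c) = ρ ^ 2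

theorem nc {s : Set Z} {n : ℕ} (p : Z → Prop) [DecidablePred p]
    (h : (Finset.univ.filter p).card = n) (hs : s = {x | p x}) : s.ncard = n := by
  rw [← h, ← Set.ncard_coe_finset, hs]
  congr 1
  ext x
  simp

theorem result : ∃ (α β : Type) (k : ℕ) (I : α → β → Prop), Nonempty α ∧ 2 ≤ k ∧ Config k I ∧
    (∃ P L, Realizes I P L) ∧
    (∃ (f : α → β) (g : β → α), (∀ p, g (f p) = p) ∧ (∀ l, f (g l) = l) ∧
      ∀ p l, I p l ↔ I (g l) (f p)) ∧
    ∀ P L, Realizes I P L → ∀ (c : ℂ) (ρ : ℝ), 0 < ρ → ∀ h : ℂ ≃ᵢ ℂ,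
      h '' {q | ∃ l, IsPole c ρ q (L l)} ≠ Set.range P := by
  refine ⟨Z, Z, 3, Inc, inferInstance, by norm_num, ⟨inferInstance, inferInstance, rfl,
    fun l => nc _ (cfg1 l) rfl, fun l => nc _ (cfg2 l) rfl, fun p q h => ?_⟩, ⟨PA, LA, realA⟩,
    ⟨f0, e0, fun p => (ef p).1, fun p => (ef p).2, ef_dual⟩, ?_⟩
  · intro a ha b hb
    exact Finset.card_le_one.1 (cfg3 p q h) a (by simpa using ha) b (by simpa using hb)
  · rintro P L ⟨h1, -, h3, h4⟩ c ρ hρ h H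
    refine main P L h1 h3 h4 c ρ hρ h fun p => ?_
    have : P p ∈ h '' {q | ∃ l, IsPole c ρ q (L l)} := H ▸ ⟨p, rfl⟩
    exact this

end Pool.Agent.Results.MP_8aa8ea_co.No
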